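import Pool.Agent.H99.TP.PertD

/-!
# MP_2ef617_co, Q1: every 2-planar drawing of an optimal 2-planar graph has the pentagon structure

A topological graph is given by its planarization, see `Pool.Agent.H99.TP.GDefs`. The theorem is for
all topological graphs on the sphere: adjacent edges may cross, two edges may cross more than once,
several edges may cross in one point, and no extremality of the drawing is assumed.
-/

/-- Every 2-planar topological graph whose underlying graph is simple with `n ≥ 3` vertices and
`5 n - 10` edges has the pentagon structure. -/
theorem Pool.Agent.Results.MP_2ef617_co.EveryDrawing.result {V : Type} [Fintype V]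
    (G : SimpleGraph V) (hn : 3 ≤ Fintype.card V)
    (hm : G.edgeSet.ncard = 5 * Fintype.card V - 10)
    (H : TwoPl.TopGraph G) (hs : H.Spherical) (h2 : H.TwoPlanar) : H.PentagonStructure :=
  TwoPl.main_top G hn hm H hs h2
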